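import Mathlib
import Pool.Agent.Helper6.LE.RMT

set_option autoImplicit false

open Complex Metric Set Filter Topology

namespace Pool.Agent.Helper6.CRX

/-- the exterior of `K` in the coordinate `u = 1 / z` -/
def UU (K : Set ℂ) : Set ℂ := {u | u = 0 ∨ u⁻¹ ∉ K}

theorem zero_mem_UU (K : Set ℂ) : (0:ℂ) ∈ UU K := Or.inl rfl

theorem UU_open {K : Set ℂ} (hc : IsCompact K) : IsOpen (UU K) := by
  obtain ⟨R, hR0, hR⟩ : ∃ R : ℝ, 0 < R ∧ ∀ z ∈ K, ‖z‖ ≤ R := by
    obtain ⟨R, hR⟩ := hc.isBounded.exists_norm_le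
    exact ⟨max R 1, by positivity, fun z hz => (hR z hz).trans (le_max_left _ _)⟩
  have h1 : UU K = ball (0:ℂ) (1 / R) ∪ ({0}ᶜ ∩ (fun u : ℂ => u⁻¹) ⁻¹' Kᶜ) := by
    ext u
    simp only [UU, mem_setOf_eq, mem_union, mem_ball_zero_iff, mem_inter_iff, mem_compl_iff,
      mem_singleton_iff, mem_preimage]
    constructor
    · rintro (h | h)
      · left
        rw [h, norm_zero]
        positivity
      · by_cases hu : u = 0
        · left
          rw [hu, norm_zero]
          positivity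
        · exact Or.inr ⟨hu, h⟩
    · rintro (h | h)
      · by_cases hu : u = 0
        · exact Or.inl hu
        · right
          intro hK
          have h2 := hR _ hK
          rw [norm_inv] at h2
          have hu0 : 0 < ‖u‖ := norm_pos_iff.2 hu
          rw [lt_div_iff₀ hR0] at h
          rw [inv_le_comm₀ hu0 hR0] at h2
          have : R⁻¹ * R = 1 := inv_mul_cancel₀ hR0.ne'
          nlinarith
      · exact Or.inr h.2
  rw [h1]
  refine isOpen_ball.union ?_
  exact (continuousOn_inv₀ (G₀ := ℂ)).isOpen_inter_preimage isOpen_compl_singleton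
    hc.isClosed.isOpen_compl

theorem UU_bdd {K : Set ℂ} (h0 : (0:ℂ) ∈ interior K) : Bornology.IsBounded (UU K) := by
  obtain ⟨δ, hδ, hb⟩ := Metric.isOpen_iff.1 isOpen_interior 0 h0
  rw [isBounded_iff_forall_norm_le]
  refine ⟨1 / δ, ?_⟩
  rintro u (h | h)
  · rw [h, norm_zero]
    positivity
  · by_contra hlt
    push Not at hlt
    apply h
    apply interior_subset
    apply hb
    rw [mem_ball_zero_iff, norm_inv]
    rw [div_lt_iff₀ hδ] at hlt
    have hu : 0 < ‖u‖ := by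
      rcases (norm_nonneg u).eq_or_lt with h' | h'
      · rw [← h', zero_mul] at hlt
        linarith
      · exact h'
    rw [inv_lt_iff_one_lt_mul₀ hu]
    linarith [mul_comm ‖u‖ δ]

theorem UU_star {K : Set ℂ} (hconv : Convex ℝ K) (h0 : (0:ℂ) ∈ K) : StarConvex ℝ 0 (UU K) := by
  rw [starConvex_zero_iff]
  intro u hu a ha ha1
  rcases hu with hu | hu
  · rw [hu, smul_zero]
    exact zero_mem_UU K
  · rcases ha.eq_or_lt with h | h
    · rw [← h, zero_smul]
      exact zero_mem_UU K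
    · right
      intro hK
      apply hu
      have := hconv.smul_mem_of_zero_mem h0 hK ⟨ha, ha1⟩
      have e : a • (a • u)⁻¹ = u⁻¹ := by
        rw [real_smul, real_smul, mul_inv, ← mul_assoc, mul_inv_cancel₀, one_mul]
        exact_mod_cast h.ne'
      rwa [e] at this

/-- the exterior conformal map in the disc coordinate -/
theorem ext {K : Set ℂ} (hc : IsCompact K) (hconv : Convex ℝ K) (h0 : (0:ℂ) ∈ interior K) :
    ∃ φ g : ℂ → ℂ, DifferentiableOn ℂ φ (UU K) ∧ DifferentiableOn ℂ g (ball 0 1) ∧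
      BijOn φ (UU K) (ball 0 1) ∧ BijOn g (ball 0 1) (UU K) ∧ InvOn g φ (UU K) (ball 0 1) ∧
      φ 0 = 0 ∧ g 0 = 0 ∧ (∀ z ∈ UU K, deriv φ z ≠ 0) ∧ (∀ t ∈ ball (0:ℂ) 1, deriv g t ≠ 0) ∧
      (∀ ε : ℝ, 0 < ε → ∃ r : ℝ, 0 < r ∧ r < 1 ∧ ∀ t : ℂ, r < ‖t‖ → ‖t‖ < 1 →
        g t ≠ 0 ∧ infDist (g t)⁻¹ K < ε) := by
  have hU := UU_open hc
  have hne : K.Nonempty := ⟨0, interior_subset h0⟩
  have hbd := UU_bdd h0
  have hst := UU_star hconv (interior_subset h0)
  obtain ⟨φ, g, hφ, hg, hb1, hb2, hinv, hφ0, hg0, hd1, hd2⟩ :=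
    Pool.Agent.Helper6.LE.rmt_inv hU (Pool.Agent.Helper6.LE.star_sc hst (zero_mem_UU K)) hbd
      (zero_mem_UU K)
  refine ⟨φ, g, hφ, hg, hb1, hb2, hinv, hφ0, hg0, hd1, hd2, ?_⟩
  intro ε hε
  set C : Set ℂ := {u | u = 0 ∨ ε ≤ infDist u⁻¹ K} with hC
  have hCU : C ⊆ UU K := by
    rintro u (h | h)
    · exact Or.inl h
    · right
      intro hK
      rw [infDist_zero_of_mem hK] at h
      linarith
  have hCc : IsClosed C := by
    rw [← isOpen_compl_iff]
    have : Cᶜ = {0}ᶜ ∩ (fun u : ℂ => infDist u⁻¹ K) ⁻¹' (Iio ε) := by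
      ext u
      simp [hC, not_or]
    rw [this]
    refine ContinuousOn.isOpen_inter_preimage ?_ isOpen_compl_singleton isOpen_Iio
    exact (continuous_infDist_pt K).comp_continuousOn (continuousOn_inv₀ (G₀ := ℂ))
  have hCcomp : IsCompact C := Metric.isCompact_of_isClosed_isBounded hCc (hbd.subset hCU)
  have hcont : ContinuousOn (fun z => ‖φ z‖) C := (hφ.continuousOn.mono hCU).norm
  obtain ⟨z0, hz0, hmax⟩ := hCcomp.exists_isMaxOn ⟨0, Or.inl rfl⟩ hcont
  have hlt : ‖φ z0‖ < 1 := by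
    have := hb1.mapsTo (hCU hz0)
    rwa [mem_ball_zero_iff] at this
  refine ⟨max ‖φ z0‖ (1 / 2), by positivity, max_lt hlt (by norm_num), ?_⟩
  intro t ht ht1
  have htb : t ∈ ball (0:ℂ) 1 := by rwa [mem_ball_zero_iff]
  have hnot : g t ∉ C := by
    intro hm
    have h1 := hmax hm
    simp only [mem_setOf_eq] at h1
    rw [hinv.2 htb] at h1
    linarith [le_max_left ‖φ z0‖ (1 / 2)]
  simp only [hC, mem_setOf_eq, not_or, not_le] at hnot
  exact hnot

end Pool.Agent.Helper6.CRX
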