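import Mathlib
import Pool.Agent.Helper6.CRX.EXT

set_option autoImplicit false

open Complex Metric Set Filter Topology

namespace Pool.Agent.Helper6.CRX

/-- `t g'(t) / g(t)`, with value `1` at `0` -/
noncomputable def tau (g : ℂ → ℂ) (t : ℂ) : ℂ := deriv g t / dslope g 0 t

theorem UU_not_inv {K : Set ℂ} {u z : ℂ} (hu : u ∈ UU K) (hz : z ∈ K) : 1 - u * z ≠ 0 := by
  intro h
  have hu0 : u ≠ 0 := by
    rintro rfl
    simp at h
  rcases hu with h' | h'
  · exact hu0 h'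
  · apply h'
    have : u⁻¹ = z := by
      rw [inv_eq_iff_eq_inv]
      refine eq_inv_of_mul_eq_one_left ?_
      linear_combination -h
    rwa [this]

/-- the segment from `u` to `0` in the coordinate centred at `z` stays in `UU K` -/
theorem UU_seg {K : Set ℂ} (hconv : Convex ℝ K) (h0K : (0:ℂ) ∈ K) {u z : ℂ} (hu : u ∈ UU K)
    (hz : z ∈ K) {l : ℝ} (hl0 : 0 ≤ l) (hl1 : l ≤ 1) :
    (l:ℂ) * u / (1 - (1 - (l:ℂ)) * z * u) ∈ UU K := by
  have hz' : ((1 - l : ℝ) : ℂ) * z ∈ K := by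
    have := hconv.smul_mem_of_zero_mem h0K hz (t := 1 - l) ⟨by linarith, by linarith⟩
    rwa [real_smul] at this
  have hne := UU_not_inv hu hz'
  have hne' : 1 - (1 - (l:ℂ)) * z * u ≠ 0 := by
    intro h
    apply hne
    push_cast
    linear_combination h
  by_cases hu0 : u = 0
  · left
    rw [hu0]
    simp
  rcases hl0.eq_or_lt with h | hl
  · left
    rw [← h]
    simp
  right
  intro hK
  rcases hu with h' | h'
  · exact hu0 h'
  apply h'
  have hlc : (l:ℂ) ≠ 0 := by exact_mod_cast hl.ne'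
  have e : u⁻¹ = (1 - l) • z + l • ((l:ℂ) * u / (1 - (1 - (l:ℂ)) * z * u))⁻¹ := by
    rw [real_smul, real_smul, inv_div]
    push_cast
    field_simp
    ring
  rw [e]
  exact hconv hz hK (by linarith) hl0 (by ring)

theorem re_inv_nonneg {x : ℂ} (h : 0 ≤ x.re) : 0 ≤ (x⁻¹).re := by
  rw [inv_re]
  exact div_nonneg h (normSq_nonneg _)

/-- starlike criterion: `Re ((1 - g z) / tau) ≥ 0` -/
theorem L1inv {K : Set ℂ} (hc : IsCompact K) (hconv : Convex ℝ K) (h0K : (0:ℂ) ∈ K) {φ g : ℂ → ℂ}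
    (hφ : DifferentiableOn ℂ φ (UU K)) (hg : DifferentiableOn ℂ g (ball 0 1))
    (hb1 : MapsTo φ (UU K) (ball 0 1)) (hb2 : MapsTo g (ball 0 1) (UU K))
    (hinv : ∀ t ∈ ball (0:ℂ) 1, φ (g t) = t) (hg0 : g 0 = 0)
    {z t : ℂ} (hz : z ∈ K) (ht : ‖t‖ < 1) : 0 ≤ ((1 - g t * z) / tau g t).re := by
  have hUo := UU_open hc
  have htb : t ∈ ball (0:ℂ) 1 := by rwa [mem_ball_zero_iff]
  have hgt : DifferentiableAt ℂ g t := (hg t htb).differentiableAt (isOpen_ball.mem_nhds htb)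
  have hφt : DifferentiableAt ℂ φ (g t) := (hφ _ (hb2 htb)).differentiableAt (hUo.mem_nhds (hb2 htb))
  -- derivative relation
  have hder : deriv φ (g t) * deriv g t = 1 := by
    have h1 : HasDerivAt (fun s => φ (g s)) (deriv φ (g t) * deriv g t) t :=
      hφt.hasDerivAt.comp t hgt.hasDerivAt
    have h2 : HasDerivAt (fun s => φ (g s)) 1 t := by
      refine (hasDerivAt_id t).congr_of_eventuallyEq ?_
      filter_upwards [isOpen_ball.mem_nhds htb] with s hs
      exact hinv s hs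
    exact h1.unique h2
  by_cases ht0 : t = 0
  · have hd : deriv g 0 ≠ 0 := by
      intro h
      rw [ht0, h, mul_zero] at hder
      exact zero_ne_one hder
    have e : tau g 0 = 1 := by
      unfold tau
      rw [dslope_same, div_self hd]
    rw [ht0, hg0, e]
    simp
  -- Schwarz lemma
  have hS : ∀ l : ℝ, 0 ≤ l → l ≤ 1 →
      ‖φ ((l:ℂ) * g t / (1 - (1 - (l:ℂ)) * z * g t))‖ ≤ ‖t‖ := by
    intro l hl0 hl1
    set F : ℂ → ℂ := fun s => φ ((l:ℂ) * g s / (1 - (1 - (l:ℂ)) * z * g s)) with hF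
    have hin : ∀ s ∈ ball (0:ℂ) 1, (l:ℂ) * g s / (1 - (1 - (l:ℂ)) * z * g s) ∈ UU K :=
      fun s hs => UU_seg hconv h0K (hb2 hs) hz hl0 hl1
    have hne : ∀ s ∈ ball (0:ℂ) 1, 1 - (1 - (l:ℂ)) * z * g s ≠ 0 := by
      intro s hs h
      have hz' : ((1 - l : ℝ) : ℂ) * z ∈ K := by
        have := hconv.smul_mem_of_zero_mem h0K hz (t := 1 - l) ⟨by linarith, by linarith⟩
        rwa [real_smul] at this
      apply UU_not_inv (hb2 hs) hz'
      push_cast
      linear_combination h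
    have hd : DifferentiableOn ℂ F (ball 0 1) := by
      refine hφ.comp (t := UU K) ?_ hin
      exact (hg.const_mul _).div ((differentiableOn_const _).sub (hg.const_mul _)) hne
    have hm : MapsTo F (ball 0 1) (ball 0 1) := fun s hs => hb1 (hin s hs)
    have h00 : F 0 = 0 := by
      simp only [hF, hg0, mul_zero, sub_zero, div_one]
      have := hinv 0 (mem_ball_self one_pos)
      rwa [hg0] at this
    exact Complex.norm_le_norm_of_mapsTo_ball_self hd (hm.mono_right ball_subset_closedBall) h00 ht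
  -- derivative in `l` at `1`
  set W : ℝ → ℂ := fun l => (l:ℂ) * g t / (1 - (1 - (l:ℂ)) * z * g t) with hW
  have hW1 : W 1 = g t := by
    simp [hW]
  have hWd : HasDerivAt W (g t * (1 - g t * z)) 1 := by
    have e1 : HasDerivAt (fun l : ℝ => (l:ℂ)) 1 1 := Complex.ofRealCLM.hasDerivAt
    have e2 : HasDerivAt (fun l : ℝ => (l:ℂ) * g t) (1 * g t) 1 := e1.mul_const _
    have e3 : HasDerivAt (fun l : ℝ => 1 - (1 - (l:ℂ)) * z * g t) (-(((-1) * z) * g t)) 1 :=
      (((e1.const_sub 1).mul_const z).mul_const (g t)).const_sub 1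
    have e4 := e2.div e3 (by simp)
    have e5 := e4.congr_deriv (g' := g t * (1 - g t * z)) (by push_cast; ring)
    exact e5
  have hcomp : HasDerivAt (fun l : ℝ => φ (W l)) (deriv φ (g t) * (g t * (1 - g t * z))) 1 := by
    have h1 : HasDerivAt φ (deriv φ (g t)) (W 1) := by
      rw [hW1]
      exact hφt.hasDerivAt
    exact HasDerivAt.comp (1:ℝ) h1 hWd
  have hsq := hcomp.norm_sq
  have hval : φ (W 1) = t := by rw [hW1]; exact hinv t htb
  have hnn : 0 ≤ 2 * inner ℝ (φ (W 1)) (deriv φ (g t) * (g t * (1 - g t * z))) := by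
    have hs := hasDerivAt_iff_tendsto_slope.1 hsq
    have hs' : Tendsto (slope (fun l : ℝ => ‖φ (W l)‖ ^ 2) 1) (𝓝[<] 1)
        (𝓝 (2 * inner ℝ (φ (W 1)) (deriv φ (g t) * (g t * (1 - g t * z))))) :=
      hs.mono_left (nhdsWithin_mono _ (fun x hx => ne_of_lt hx))
    refine ge_of_tendsto hs' ?_
    have : Ioo (0:ℝ) 1 ∈ 𝓝[<] (1:ℝ) := Ioo_mem_nhdsLT one_pos
    filter_upwards [this] with l hl
    rw [slope_def_field]
    apply div_nonneg_of_nonpos
    · rw [sub_nonpos, hval]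
      have := hS l hl.1.le hl.2.le
      gcongr
    · linarith [hl.2]
  rw [hval] at hnn
  have hinn : inner ℝ t (deriv φ (g t) * (g t * (1 - g t * z)))
      = ‖t‖ ^ 2 * ((1 - g t * z) / tau g t).re := by
    have hdg : deriv g t ≠ 0 := by
      intro h
      rw [h, mul_zero] at hder
      exact zero_ne_one hder
    have hgt0 : g t ≠ 0 := by
      intro h
      have h1 := hinv t htb
      have h2 := hinv 0 (mem_ball_self one_pos)
      rw [h] at h1
      rw [hg0] at h2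
      exact ht0 (h1.symm.trans h2)
    have e1 : tau g t = t * deriv g t / g t := by
      unfold tau
      rw [dslope_of_ne _ ht0, slope_def_field, hg0, sub_zero, sub_zero]
      field_simp
    have e2 : deriv φ (g t) = (deriv g t)⁻¹ := eq_inv_of_mul_eq_one_left hder
    have e3 : (starRingEnd ℂ) t * (deriv φ (g t) * (g t * (1 - g t * z)))
        = ((‖t‖ ^ 2 : ℝ) : ℂ) * ((1 - g t * z) / tau g t) := by
      have e4 : ((‖t‖ ^ 2 : ℝ) : ℂ) = (starRingEnd ℂ) t * t := by
        rw [← Complex.normSq_eq_norm_sq, Complex.normSq_eq_conj_mul_self]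
      rw [e4, e1, e2]
      field_simp
    rw [Complex.inner, mul_comm _ ((starRingEnd ℂ) t), e3, re_ofReal_mul]
  rw [hinn] at hnn
  have htp : 0 < ‖t‖ ^ 2 := by positivity
  by_contra hneg
  push Not at hneg
  nlinarith [mul_neg_of_pos_of_neg htp hneg]

/-- `Re (tau / (1 - g z)) ≥ 0` -/
theorem L1 {K : Set ℂ} (hc : IsCompact K) (hconv : Convex ℝ K) (h0K : (0:ℂ) ∈ K) {φ g : ℂ → ℂ}
    (hφ : DifferentiableOn ℂ φ (UU K)) (hg : DifferentiableOn ℂ g (ball 0 1))
    (hb1 : MapsTo φ (UU K) (ball 0 1)) (hb2 : MapsTo g (ball 0 1) (UU K))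
    (hinv : ∀ t ∈ ball (0:ℂ) 1, φ (g t) = t) (hg0 : g 0 = 0)
    {z t : ℂ} (hz : z ∈ K) (ht : ‖t‖ < 1) : 0 ≤ (tau g t / (1 - g t * z)).re := by
  rw [← inv_div]
  exact re_inv_nonneg (L1inv hc hconv h0K hφ hg hb1 hb2 hinv hg0 hz ht)

end Pool.Agent.Helper6.CRX
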